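import Pool.Agent.Helper17.ZK.Gap
import Pool.Agent.Helper13GL.Mot

/-!
# The Kimura-finiteness of all noncommutative Chow motives is a weak bound for Grothendieck groups

Let `V` be the class of all smooth proper dg categories over a perfect field `k`, or a subclass which is
closed under `A ↦ (A^op ⊗ A)^⊗n` and `A ↦ A ⊔ k ⊔ k`. For `B` in `V` let `b(B)` be the total dimension
of its periodic cyclic homology `HP(B)` (`TP(B)[1/p]` in characteristic `p`), let `K_0(B)_num` be the
space of the numerically trivial classes in `K_0(B)_ℚ`, and let `K_0(B)_nil` be the space of the classes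
`α` which are nil on all `A` in `V`: for all `m` and all morphisms `h : U(B) ⊗ U(A)^⊗m ⟶ U(A)^⊗m` the
endomorphism `h(α ⊗ -)` of `U(A)^⊗m` is nilpotent. (For the class of all `A` these `α` are the elements of
the largest nil tensor ideal of `NChow(k)_ℚ`; all smash-nilpotent classes are nil.)

*Theorem.* `U(A)_ℚ` is Kimura-finite for all `A` in `V` if and only if

* all `A` in `V` satisfy the sign conjecture `C⁺`: the projector of `HP(A)` to its even part is induced
  by a class in `K_0(A^op ⊗ A)_ℚ`; and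
* for every `a` there is a constant `c` such that

  `dim_ℚ (K_0(B)_num / (K_0(B)_num ∩ K_0(B)_nil)) ≤ c · b(B) / (log b(B))^a`

  for all `B` in `V` with `b(B) ≥ 2`.

Besides `C⁺` the bound `dim_ℚ (K_0(B)_num / (K_0(B)_num ∩ K_0(B)_nil)) ≤ c · b(B)^{1-ε}` for these `B`,
with one `ε > 0` and one `c`, is sufficient (second part of `result`). So Q1 for the field `k` is, besides `C⁺`, the question whether the dimension of the space
of the numerically trivial classes modulo the nil ones is a little smaller than the trivial order of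
magnitude `b(B)` of the space of all classes modulo homological equivalence, uniformly in `B`. If Q1 is
true for `k` then these dimensions are all `0`.

The setting. `C` is the category `NChow(k)_ℚ` of noncommutative Chow motives, `T A = U(A)`,
`(T A)^∨ = U(A^op)`, `tp (T A ⊗ (T A)^∨) n = U((A^op ⊗ A)^⊗n)`, `𝟙_ C ⟶ T B` is `K_0(B)_ℚ`; `R` is given
by `HP` or `TP(-)[1/p]` with coefficients extended to an algebraically closed field `K`.

Idea of the proof. Let `U(A)` satisfy `C⁺`, let `b = b(A) ≥ 2` and put `B_n = (A^op ⊗ A)^⊗n`. By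
`Pool.Agent.Helper17.ZK.one_inequality` (the explicit form of the law for additive functors of the
starting library, N64, applied to the numerically trivial classes modulo those which are nil on `A`)
`U(A)` is Kimura-finite if for one large `n` the space of the numerically trivial classes in `K_0(B_n)_ℚ`
modulo the nil ones has dimension less than `b ^ (2 n) / (2 (n + 1) ^ (b ^ 2))`, and
`b(B_n) / (log b(B_n))^(b²+1)` is much smaller than this for large `n`.
-/

set_option autoImplicit false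
set_option linter.unusedSectionVars false

open CategoryTheory MonoidalCategory Module
open Pool.Agent.Y112.SR Pool.Agent.Y112.KD Pool.Agent.N64.AF Pool.Agent.R905
  Pool.Agent.Helper13GL Pool.Agent.Helper17.ZK

namespace Pool.Agent.Results.MP_6e5bed_ag.DimensionBound

universe v u w x

variable {C : Type u} [Category.{v} C] [Preadditive C] [MonoidalCategory C]
  [MonoidalPreadditive C] [SymmetricCategory C] [RightRigidCategory C]
  [Linear ℚ C] [MonoidalLinear ℚ C] [IsIdempotentComplete C]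
  {K : Type w} [Field K] [IsAlgClosed K] [Algebra ℚ K] {R : SuperRealisation C K}

/-- A class of smooth proper dg categories `A`, with `T A = U(A)_ℚ`, closed under
`A ↦ (A^op ⊗ A)^⊗n`, and such that each `U(A)` is a direct summand of some `U(B)` with
`dim HP(B) ≥ 2` (`B = A ⊔ k ⊔ k`). -/
structure IsDGClass (R : SuperRealisation C K) {V : Type x} (T : V → C) : Prop where
  power : ∀ A n, 0 < n → ∃ B, Nonempty (T B ≅ tp (T A ⊗ (T A)ᘁ) n)
  summand : ∀ A, ∃ B, 2 ≤ bt R (T B) ∧ ∃ (i : T A ⟶ T B) (r : T B ⟶ T A), i ≫ r = 𝟙 (T A)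

/-- The space of the classes on `Z` which are nil on all `A` in the class. -/
def nilAll {V : Type x} (T : V → C) (Z : C) : Submodule ℚ (𝟙_ C ⟶ Z) := ⨅ A, nilSub (T A) Z

/-- The numerically trivial classes on `Z` modulo the nil ones. -/
abbrev NumModNilAll {V : Type x} (T : V → C) (Z : C) : Type _ :=
  numIdeal ℚ (𝟙_ C) Z ⧸ (nilAll T Z).comap (numIdeal ℚ (𝟙_ C) Z).subtype

/-- `dim_ℚ (K_0(B)_num / (K_0(B)_num ∩ K_0(B)_nil)) ≤ c · b(B) / (log b(B))^a` for all `B` in the
class with `b(B) ≥ 2`. -/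
def DimBound (R : SuperRealisation C K) {V : Type x} (T : V → C) (a : ℕ) (c : ℝ) : Prop :=
  ∀ B, 2 ≤ bt R (T B) → ∃ k : ℕ, dimE ℚ (NumModNilAll T (T B)) = k ∧
    (k : ℝ) ≤ c * bt R (T B) / Real.log (bt R (T B)) ^ a

omit [Linear ℚ C] [MonoidalLinear ℚ C] [IsIdempotentComplete C] [IsAlgClosed K] [Algebra ℚ K] in
lemma bt_iso {Y Z : C} (i : Y ≅ Z) : bt R Y = bt R Z :=
  LinearEquiv.finrank_eq (R.H.mapIso i).toLinearEquiv

/-- On a Kimura finite object the numerically trivial classes are nil. -/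
lemma nilOn_of_kimura (hR : IsReal ℚ R) {T Z : C} (h : IsKimuraFinite T) {α : 𝟙_ C ⟶ Z}
    (hα : NumTriv α) : NilOn T α := by
  intro m g
  obtain ⟨d⟩ := dec_of_kimura h
  obtain ⟨κ, _, ⟨d'⟩⟩ := dec_tp d m
  exact d'.nilpotent hR _ (act_numTriv hR hα g)

/-- Direct summands of Kimura finite objects are Kimura finite. -/
lemma kimura_retract (hR : IsReal ℚ R) {T P : C} (h : IsKimuraFinite T) (i : P ⟶ T) (r : T ⟶ P)
    (hir : i ≫ r = 𝟙 P) : IsKimuraFinite P := by
  have hC : R.CPlus P := cplus_retract R i r hir (h.cplus R)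
  refine kimura_of_nil hR hC fun n => ?_
  have h1 : HomNil R (tp T n) := by
    intro f hf
    obtain ⟨d⟩ := dec_of_kimura h
    obtain ⟨κ, _, ⟨d'⟩⟩ := dec_tp d n
    exact d'.nilpotent hR f (numTriv_of_map hR hf)
  exact h1.retract (tpm i n) (tpm r n) (by rw [tpm_comp, hir, tpm_id])

/-- The space of the numerically trivial classes modulo those which are nil on one `A` is a
quotient of the space of the numerically trivial classes modulo the nil ones. -/
lemma dimE_le {V : Type x} (T : V → C) (A : V) (Z : C) {k : ℕ}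
    (h : dimE ℚ (NumModNilAll T Z) = k) : dimE ℚ (NumModNil (T A) Z) ≤ k := by
  have hfin : Module.Finite ℚ (NumModNilAll T Z) := by
    by_contra hc
    rw [dimE_top hc] at h
    exact ENat.top_ne_natCast k h
  have hle : (nilAll T Z).comap (numIdeal ℚ (𝟙_ C) Z).subtype ≤
      (nilSub (T A) Z).comap (numIdeal ℚ (𝟙_ C) Z).subtype :=
    Submodule.comap_mono (iInf_le _ A)
  have hs : Function.Surjective (Submodule.factor hle) := Submodule.factor_surjective hle
  have hfin' : Module.Finite ℚ (NumModNil (T A) Z) := Module.Finite.of_surjective _ hs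
  have h1 := LinearMap.finrank_le_finrank_of_surjective hs
  rw [← h, dimE_eq, dimE_eq]
  exact_mod_cast h1

theorem main (hR : IsReal ℚ R) {V : Type x} (T : V → C) (hV : IsDGClass R T) :
    (∀ A, IsKimuraFinite (T A)) ↔
      (∀ A, R.CPlus (T A)) ∧ ∀ a : ℕ, ∃ c : ℝ, DimBound R T a c := by
  constructor
  · intro h
    refine ⟨fun A => (h A).cplus R, fun a => ⟨0, fun B hB => ⟨0, ?_, by simp⟩⟩⟩
    have h2 : Subsingleton (NumModNilAll T (T B)) := by
      rw [Submodule.Quotient.subsingleton_iff, eq_top_iff]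
      rintro ⟨α, hα⟩ _
      change α ∈ nilAll T (T B)
      rw [nilAll, Submodule.mem_iInf]
      exact fun A => nilOn_of_kimura hR (h A) hα
    rw [dimE_eq, finrank_zero_of_subsingleton]
  · rintro ⟨hC, h⟩ A₀
    obtain ⟨A, hb2, i₀, r₀, hir⟩ := hV.summand A₀
    refine kimura_retract hR ?_ i₀ r₀ hir
    set b := bt R (T A) with hb
    obtain ⟨c, hc⟩ := h (b ^ 2 + 1)
    obtain ⟨n, hn⟩ : ∃ n : ℕ, max (2 * c) (128 * (b + 2) ^ 2 * b ^ (4 * b + 16) + 3 : ℕ) < n :=
      exists_nat_gt _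
    have hn1 : 2 * c < n := lt_of_le_of_lt (le_max_left _ _) hn
    have hn2 : 128 * (b + 2) ^ 2 * b ^ (4 * b + 16) + 3 < n := by
      exact_mod_cast lt_of_le_of_lt (le_max_right _ _) hn
    have hn0 : 3 ≤ n := by omega
    obtain ⟨Y, ⟨i⟩⟩ := hV.power A n (by omega)
    have hBY : bt R (T Y) = b ^ (2 * n) := by
      rw [bt_iso i, bt_tp, bt_tensor, bt_dual, ← hb, pow_mul, pow_two]
    have hY2 : 2 ≤ bt R (T Y) := by
      rw [hBY]
      calc 2 ≤ b := hb2
        _ = b ^ 1 := (pow_one b).symm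
        _ ≤ b ^ (2 * n) := Nat.pow_le_pow_right (by omega) (by omega)
    obtain ⟨k, hk, hk'⟩ := hc Y hY2
    have hk2 : dimE ℚ (NumModNil (T A) (tp (T A ⊗ (T A)ᘁ) n)) ≤ k := by
      refine le_trans (le_of_eq ?_) (dimE_le T A (T Y) hk)
      exact (dimE_congr (isoEquiv (numModNilF hR (T A)) i)).symm
    -- the inequality
    have hlog : (n : ℝ) + 1 ≤ Real.log (bt R (T Y)) := by
      rw [hBY]
      push_cast
      rw [Real.log_pow]
      have h1 : Real.log 2 ≤ Real.log b :=
        Real.log_le_log (by norm_num) (by exact_mod_cast hb2)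
      have h2 : (0.6931471803 : ℝ) < Real.log 2 := Real.log_two_gt_d9
      have h3 : (3 : ℝ) ≤ n := by exact_mod_cast hn0
      push_cast
      nlinarith
    have hlt : 2 * (n + 1) ^ (b ^ 2) * k < b ^ (2 * n) := by
      have hB : (0 : ℝ) < (b : ℝ) ^ (2 * n) := by positivity
      have hn1' : (0 : ℝ) < (n : ℝ) + 1 := by positivity
      have hL : ((n : ℝ) + 1) ^ (b ^ 2 + 1) ≤ Real.log (bt R (T Y)) ^ (b ^ 2 + 1) :=
        pow_le_pow_left₀ hn1'.le hlog _
      have hL0 : (0 : ℝ) < ((n : ℝ) + 1) ^ (b ^ 2 + 1) := by positivity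
      have hkey : (k : ℝ) * ((n : ℝ) + 1) ^ (b ^ 2 + 1) ≤ max c 0 * (b : ℝ) ^ (2 * n) := by
        have h1 : (k : ℝ) * Real.log (bt R (T Y)) ^ (b ^ 2 + 1) ≤ c * bt R (T Y) := by
          rwa [le_div_iff₀ (lt_of_lt_of_le hL0 hL)] at hk'
        have h2 : ((bt R (T Y) : ℕ) : ℝ) = (b : ℝ) ^ (2 * n) := by
          rw [hBY]
          push_cast
          rfl
        rw [h2] at h1
        calc (k : ℝ) * ((n : ℝ) + 1) ^ (b ^ 2 + 1)
            ≤ k * Real.log ((b : ℝ) ^ (2 * n)) ^ (b ^ 2 + 1) := by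
              rw [← h2]
              exact mul_le_mul_of_nonneg_left hL (Nat.cast_nonneg _)
          _ ≤ c * (b : ℝ) ^ (2 * n) := h1
          _ ≤ max c 0 * (b : ℝ) ^ (2 * n) := mul_le_mul_of_nonneg_right (le_max_left _ _) hB.le
      have h3 : 2 * max c 0 < (n : ℝ) + 1 := by
        rcases le_total c 0 with h4 | h4
        · rw [max_eq_right h4]
          linarith
        · rw [max_eq_left h4]
          linarith
      have h5 : (2 * ((n : ℝ) + 1) ^ (b ^ 2) * k) * ((n : ℝ) + 1) <
          (b : ℝ) ^ (2 * n) * ((n : ℝ) + 1) := by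
        calc (2 * ((n : ℝ) + 1) ^ (b ^ 2) * k) * ((n : ℝ) + 1)
            = 2 * (k * ((n : ℝ) + 1) ^ (b ^ 2 + 1)) := by ring
          _ ≤ 2 * (max c 0 * (b : ℝ) ^ (2 * n)) := by linarith
          _ = (2 * max c 0) * (b : ℝ) ^ (2 * n) := by ring
          _ < ((n : ℝ) + 1) * (b : ℝ) ^ (2 * n) := mul_lt_mul_of_pos_right h3 hB
          _ = (b : ℝ) ^ (2 * n) * ((n : ℝ) + 1) := by ring
      have h6 : 2 * ((n : ℝ) + 1) ^ (b ^ 2) * k < (b : ℝ) ^ (2 * n) :=
        lt_of_mul_lt_mul_right h5 hn1'.le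
      exact_mod_cast h6
    refine one_inequality hR (hC A) (by omega) (n := n) (by rw [← hb]; omega) ?_
    rw [← hb]
    refine lt_of_le_of_lt (mul_le_mul' le_rfl hk2) ?_
    exact_mod_cast hlt

/-- Powers of the logarithm are smaller than all powers. -/
lemma log_pow_le {ε : ℝ} (hε : 0 < ε) (a : ℕ) : ∃ M : ℝ, 0 < M ∧ ∀ b : ℝ, 1 ≤ b →
    Real.log b ^ a ≤ M * b ^ ε := by
  have ha : (0 : ℝ) < a + 1 := by positivity
  have hδ : 0 < ε / (a + 1) := div_pos hε ha
  refine ⟨((ε / (a + 1))⁻¹) ^ a, by positivity, fun b hb => ?_⟩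
  have hb0 : 0 ≤ b := by linarith
  have h1 := Real.log_le_rpow_div hb0 hδ
  have h2 : Real.log b ^ a ≤ (b ^ (ε / (a + 1)) / (ε / (a + 1))) ^ a :=
    pow_le_pow_left₀ (Real.log_nonneg hb) h1 a
  refine h2.trans ?_
  rw [div_eq_inv_mul, mul_pow]
  refine mul_le_mul_of_nonneg_left ?_ (by positivity)
  rw [← Real.rpow_natCast, ← Real.rpow_mul hb0]
  refine Real.rpow_le_rpow_of_exponent_le hb ?_
  rw [div_mul_eq_mul_div, div_le_iff₀ ha]
  nlinarith

/-- `dim_ℚ (K_0(B)_num / (K_0(B)_num ∩ K_0(B)_nil)) ≤ c · b(B) ^ (1 - ε)` for all `B` in the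
class with `b(B) ≥ 2`. -/
def PowerBound (R : SuperRealisation C K) {V : Type x} (T : V → C) (ε c : ℝ) : Prop :=
  ∀ B, 2 ≤ bt R (T B) → ∃ k : ℕ, dimE ℚ (NumModNilAll T (T B)) = k ∧
    (k : ℝ) ≤ c * (bt R (T B) : ℝ) ^ (1 - ε)

/-- A power saving is sufficient. -/
lemma DimBound.of_power {V : Type x} {T : V → C} {ε c : ℝ} (hε : 0 < ε)
    (h : PowerBound R T ε c) (a : ℕ) : ∃ c' : ℝ, DimBound R T a c' := by
  obtain ⟨M, hM, hlog⟩ := log_pow_le hε a
  refine ⟨max c 0 * M, fun B hB => ?_⟩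
  obtain ⟨k, hk, hk'⟩ := h B hB
  refine ⟨k, hk, hk'.trans ?_⟩
  have hb2 : (2 : ℝ) ≤ bt R (T B) := by exact_mod_cast hB
  set b : ℝ := ((bt R (T B) : ℕ) : ℝ)
  have hb0 : (0 : ℝ) < b := by linarith
  have hL : 0 < Real.log b ^ a := pow_pos (Real.log_pos (by linarith)) a
  rw [le_div_iff₀ hL]
  have h1 := hlog b (by linarith)
  have h2 : b ^ (1 - ε) * b ^ ε = b := by
    rw [← Real.rpow_add hb0, sub_add_cancel, Real.rpow_one]
  have h3 : (0 : ℝ) ≤ b ^ (1 - ε) := Real.rpow_nonneg hb0.le _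
  calc c * b ^ (1 - ε) * Real.log b ^ a
      ≤ max c 0 * b ^ (1 - ε) * Real.log b ^ a := by
        refine mul_le_mul_of_nonneg_right ?_ hL.le
        exact mul_le_mul_of_nonneg_right (le_max_left _ _) h3
    _ ≤ max c 0 * b ^ (1 - ε) * (M * b ^ ε) := by
        refine mul_le_mul_of_nonneg_left h1 ?_
        exact mul_nonneg (le_max_right _ _) h3
    _ = max c 0 * M * (b ^ (1 - ε) * b ^ ε) := by ring
    _ = max c 0 * M * b := by rw [h2]

/-- Kimura-finiteness for all `A` in the class is `C⁺` and a weak uniform bound; a bound with a power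
saving is sufficient. -/
theorem result (hR : IsReal ℚ R) {V : Type x} (T : V → C) (hV : IsDGClass R T) :
    ((∀ A, IsKimuraFinite (T A)) ↔
      (∀ A, R.CPlus (T A)) ∧ ∀ a : ℕ, ∃ c : ℝ, DimBound R T a c) ∧
    ((∀ A, R.CPlus (T A)) → (∃ ε > 0, ∃ c : ℝ, PowerBound R T ε c) →
      ∀ A, IsKimuraFinite (T A)) := by
  refine ⟨main hR T hV, ?_⟩
  rintro hC ⟨ε, hε, c, h⟩
  exact (main hR T hV).2 ⟨hC, fun a => DimBound.of_power hε h a⟩

end Pool.Agent.Results.MP_6e5bed_ag.DimensionBound
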