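import Pool.Agent.Helper17.ZK.Gap

/-!
# Kimura-finiteness of a noncommutative Chow motive is one inequality for one explicit `n`

Let `A` be a smooth proper dg category over a perfect field `k` which satisfies the sign conjecture `C⁺`
(the projector of `HP(A)` to its even part is induced by a class in `K_0(A^op ⊗ A)_ℚ`; this is necessary
for Kimura-finiteness), and let `b > 0` be the total dimension of its periodic cyclic homology
(`TP(A)[1/p]` in characteristic `p`). Put `B_n = (A^op ⊗ A)^⊗n`, `V(n) = K_0(B_n)_ℚ`, let `V(n)_num` be the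
space of the numerically trivial classes, and `V(n)_nil` its subspace of the classes `α` which are nil
on `A`: for all `m` and all morphisms `h : U(B_n) ⊗ U(A)^⊗m ⟶ U(A)^⊗m` the endomorphism `h(α ⊗ -)` of
`U(A)^⊗m` is nilpotent.

Theorem. For each single `n ≥ 128 (b + 2)² b^{4 b + 16}`: the noncommutative Chow motive `U(A)_ℚ` is
Kimura-finite if and only if

  `dim_ℚ (V(n)_num / V(n)_nil) < b ^ (2 n) / (2 (n + 1) ^ (b ^ 2))`.

(The right hand side is almost the dimension `b ^ (2 n)` of the periodic cyclic homology of `B_n`; the
left hand side might a priori be infinite. If `U(A)_ℚ` is Kimura-finite then the left hand side is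
zero.) So if `U(A)_ℚ` is not Kimura-finite then this quotient has dimension at least
`b ^ (2 n) / (2 (n + 1) ^ (b ^ 2))` for ALL `n ≥ 128 (b + 2)² b^{4 b + 16}`: nothing in between is
possible, and Kimura-finiteness is decided by the size of `V(n)_num / V(n)_nil` for one explicit `n`
which depends on `b` only.

The setting. `C` is the category `NChow(k)_ℚ` of noncommutative Chow motives, `T = U(A)`,
`T^∨ = U(A^op)`, `tp (T ⊗ T^∨) n = U(B_n)`, `𝟙_ C ⟶ tp (T ⊗ T^∨) n` is `V(n)`; `R` is given by `HP` or
`TP(-)[1/p]` with coefficients extended to an algebraically closed field `K`.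

Idea of the proof. By the explicit form of the law for additive functors (starting library, N64) for
the functor `Z ↦ Hom(𝟙, Z)_num / Hom(𝟙, Z)_nil` the inequality for `n` implies that this functor
vanishes on `U(B_m)` for all `m ≤ b + 1`. So the homologically trivial endomorphisms of `U(A)^⊗m` are
nilpotent for these `m`. With `C⁺` one gets `U(A) = E ⊕ O` with even and odd realisation of dimensions
`b⁺, b⁻ ≤ b`, and the projectors to `Λ^{b⁺+1} E` and `Sym^{b⁻+1} O` are homologically trivial idempotents of
`E^⊗(b⁺+1)`, `O^⊗(b⁻+1)`, hence zero. The converse: on a Kimura-finite object all numerically trivial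
classes are nil (`Pool.Agent.Helper17.ZK.kimura_iff_nil`).
-/

set_option autoImplicit false

open CategoryTheory MonoidalCategory Module
open Pool.Agent.Y112.SR Pool.Agent.Y112.KD Pool.Agent.N64.AF Pool.Agent.R905
  Pool.Agent.Helper17.ZK

namespace Pool.Agent.Results.MP_6e5bed_ag.OneInequality

universe v u w

/-- Kimura-finiteness as one inequality. -/
theorem result {C : Type u} [Category.{v} C] [Preadditive C] [MonoidalCategory C]
    [MonoidalPreadditive C] [SymmetricCategory C] [RightRigidCategory C]
    [Linear ℚ C] [MonoidalLinear ℚ C] [IsIdempotentComplete C]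
    {K : Type w} [Field K] [IsAlgClosed K] [Algebra ℚ K] (R : SuperRealisation C K)
    (hR : IsReal ℚ R) (T : C) (hT : R.CPlus T) (hb : 0 < bt R T) (n : ℕ)
    (hn : 128 * (bt R T + 2) ^ 2 * bt R T ^ (4 * bt R T + 16) ≤ n) :
    IsKimuraFinite T ↔
      (2 * (n + 1) ^ (bt R T ^ 2) : ℕ) * dimE ℚ (NumModNil T (tp (T ⊗ Tᘁ) n)) <
        ((bt R T ^ (2 * n) : ℕ) : ℕ∞) :=
  one_inequality_iff hR hT hb hn

end Pool.Agent.Results.MP_6e5bed_ag.OneInequality
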