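import Pool.Agent.Helper17.OK.Fin

/-!
# The noncommutative Chow motive of `X` is Kimura-finite if and only if the Chow motive of `X` is

`C` and `D` are `ℚ`-linear, idempotent complete, rigid symmetric monoidal categories, `End(𝟙) = ℚ` in
`D` (`UnitQ`), and `F : C ⥤ D` is a faithful additive symmetric monoidal functor.

* `Orbit F`: there are objects `T i`, `i ∈ ℤ`, of `C` with isomorphisms `F(T i) ≅ 𝟙`, and each morphism
  `F(M) ⟶ F(N)` is the sum of `F(f)`, `f : M ⟶ N`, and of finitely many composites
  `F(M) ⟶ F(N ⊗ T i) ≅ F(N)` of images of morphisms `M ⟶ N ⊗ T i`, `i ≠ 0`.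
* `SuperRealisation D K`: a symmetric monoidal functor `R` from `D` to finite-dimensional super vector
  spaces over a field `K`.
* `Grading R O`: the spaces `R(F(M))`, `M` in `C`, are graded by `ℤ`, morphisms of `C` preserve the
  degree, the isomorphism `R(F(M ⊗ T i)) ≅ R(F(M))` raises it by `2 i`, and the parity is the parity of
  the degree.
* `IsKimuraFinite M`: there is an idempotent `e` of `M` such that some exterior power of `(M, e)` and
  some symmetric power of `(M, 1 - e)` vanish.

Theorem. For all `M` in `C`, `F(M)` is Kimura-finite if and only if `M` is.

For the problem: `C = Chow(k)_ℚ`, `D = NChow(k)_ℚ`, `F(h(X)) = U(perf_dg(X))_ℚ`, `T i = ℚ(i)`; the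
condition `Orbit` is the theorem of Kontsevich and Tabuada that `NChow(k)_ℚ` contains the orbit category
of `Chow(k)_ℚ` for the Tate twist (`K_0(X × Y)_ℚ = ⊕ CH^i(X × Y)_ℚ`). `R` is periodic cyclic homology,
graded by `HP(X) = ⊕ H^n_dR(X)`, or topological periodic cyclic homology, after extension of scalars to
the perfect closure of `k`, graded by crystalline cohomology. So `K(X)` holds if (and only if)
`U(perf_dg(X))_ℚ` is Kimura-finite; in particular a positive answer to Q1 implies the conjecture of Kimura
and O'Sullivan for all smooth projective varieties over `k`. The listed direction is `K(X)` implies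
Kimura-finiteness of `U(perf_dg(X))_ℚ`.

The difficulty of the other direction is that the idempotent `e` of `U(perf_dg(X))_ℚ` is a correspondence
of mixed degree. Its component of degree zero is in general not idempotent. But its realisation is the even
projector, hence homogeneous, so the component of degree zero has the same realisation (the sign
conjecture holds for `X`); homologically trivial endomorphisms of a Kimura-finite object are nilpotent
(Kimura), so the component of degree zero can be corrected to an idempotent correspondence `e'` of degree
zero, and `(F(X), e')` is a summand of `F(X)` of pure parity, so one of its powers vanishes.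
-/

set_option autoImplicit false

open CategoryTheory MonoidalCategory

universe v₁ v₂ u₁ u₂ w

namespace Pool.Agent.Results.MP_6e5bed_ag.OrbitFunctorsReflect

open Pool.Agent.Y112.SR Pool.Agent.Y112.KD Pool.Agent.R905 Pool.Agent.Helper17.OK

/-- A functor to an orbit category with a graded realisation preserves and reflects
Kimura-finiteness. -/
theorem result {C : Type u₁} [Category.{v₁} C] [Preadditive C] [Linear ℚ C] [MonoidalCategory C]
    [MonoidalPreadditive C] [MonoidalLinear ℚ C] [SymmetricCategory C] [RightRigidCategory C]
    [IsIdempotentComplete C]
    {D : Type u₂} [Category.{v₂} D] [Preadditive D] [Linear ℚ D] [MonoidalCategory D]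
    [MonoidalPreadditive D] [MonoidalLinear ℚ D] [SymmetricCategory D] [RightRigidCategory D]
    [IsIdempotentComplete D] (hU : UnitQ D)
    (F : C ⥤ D) [F.Braided] [F.Additive] [F.Faithful] (O : Orbit F)
    {K : Type w} [Field K] (R : SuperRealisation D K) (G : Grading R O) (M : C) :
    IsKimuraFinite (F.obj M) ↔ IsKimuraFinite M :=
  kimura_iff hU O G M

end Pool.Agent.Results.MP_6e5bed_ag.OrbitFunctorsReflect
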