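import Pool.Agent.Helper17.ZK.Main

/-!
# The zero-one law for the Kimura-finiteness of noncommutative Chow motives

Let `A` be a smooth proper dg category over a perfect field `k` with nonzero periodic cyclic homology
`HP(A)` (in characteristic `0`; `TP(A)[1/p]` in characteristic `p`), which satisfies the sign conjecture
`C⁺`: the projector of `HP(A)` to its even part is induced by a class in `K_0(A^op ⊗ A)_ℚ`. This condition
is necessary for Kimura-finiteness; it is known for `A = perf(X)` for all smooth proper `X` over finite
fields and for many `X` in general, and passes to tensor products and semi-orthogonal components with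
`C⁺`. Put `B_n = (A^op ⊗ A)^⊗n` and `V(n) = K_0(B_n)_ℚ`, let `ρ(n)` be the rank of `V(n)` modulo numerical
equivalence (the kernel of the Euler pairing), and let `V(n)_nil` be the space of the classes `α` in
`V(n)` which are nil on `A`: for all `m` and all morphisms `h : U(B_n) ⊗ U(A)^⊗m ⟶ U(A)^⊗m` the
endomorphism `h(α ⊗ -)` of `U(A)^⊗m` is nilpotent. All such classes are numerically trivial; all classes
which are smash-nilpotent (for `A = perf(X)` for instance the algebraically trivial ones) are nil on `A`.

Theorem. The quotient

  `dim_ℚ (V(n) / V(n)_nil) / ρ(n)`

converges, for `n → ∞`, to `1` or to infinity. It converges to `1` if and only if the noncommutative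
Chow motive `U(A)_ℚ` is Kimura-finite.

So, for `A` with `C⁺`, Kimura-finiteness is a question about the size of Grothendieck groups only: if
`dim (V(n) / V(n)_nil) ≤ c ρ(n)` for infinitely many `n` and one constant `c`, however large, then
`U(A)_ℚ` is Kimura-finite, and then `V(n)_nil` is the space of the numerically trivial classes for all
`n`; if `U(A)_ℚ` is not Kimura-finite, then the numerically trivial classes make up almost everything.
In particular it suffices that `K_0(B_n)_ℚ` modulo smash-nilpotence is at most `c` times as large as
modulo numerical equivalence, for infinitely many `n`. For `A = perf(X)` this is a criterion for the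
Chow motive of `X` (`OrbitFunctorsReflect`, same problem).

The setting. `C` is the category `NChow(k)_ℚ` of noncommutative Chow motives, `T = U(A)`,
`T^∨ = U(A^op)`, `tp (T ⊗ T^∨) n = U(B_n)`, `𝟙_ C ⟶ tp (T ⊗ T^∨) n` is `V(n)`; `R` is given by `HP` or
`TP(-)[1/p]` with coefficients extended to an algebraically closed field `K`.

Idea of the proof. By the law of the dimensions of the values of additive functors on the powers of
`T ⊗ T^∨` (starting library, N64), applied to the functor `Z ↦ Hom(𝟙, Z) / (nil classes)`, the limit `N`
exists and, if it is finite, the exterior powers `α ⊗ ⋯ ⊗ α` (`N` factors) of the numerically trivial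
classes are nil on `T`. The `N`-th power of an endomorphism `h(α ⊗ -)` is of the form
`H(α ⊗ ⋯ ⊗ α ⊗ -)`, so `α` itself is nil, and `N = 1`. If all numerically trivial classes are nil then
the homologically trivial endomorphisms of the powers of `T` are nilpotent, which together with `C⁺`
gives Kimura-finiteness. Conversely, the tensor powers of a Kimura-finite object are finite sums of
objects with a vanishing exterior or symmetric power, and for such sums the numerically trivial
endomorphisms are nilpotent (the radical of the trace form is a sum of nilpotent ideals, by the theorem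
of Nagata and Higman).
-/

set_option autoImplicit false

open CategoryTheory MonoidalCategory Module
open Pool.Agent.Y112.SR Pool.Agent.Y112.KD Pool.Agent.N64.AF Pool.Agent.R905
  Pool.Agent.Helper17.ZK

namespace Pool.Agent.Results.MP_6e5bed_ag.ZeroOneLaw

universe v u w

/-- The zero-one law for Kimura-finiteness. -/
theorem result {C : Type u} [Category.{v} C] [Preadditive C] [MonoidalCategory C]
    [MonoidalPreadditive C] [SymmetricCategory C] [RightRigidCategory C]
    [Linear ℚ C] [MonoidalLinear ℚ C] [IsIdempotentComplete C]
    {K : Type w} [Field K] [IsAlgClosed K] [Algebra ℚ K] (R : SuperRealisation C K)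
    (hR : IsReal ℚ R) (T : C) (hT : R.CPlus T) (hb : 0 < bt R T) :
    ∃ N : ℕ∞, (N = 1 ∨ N = ⊤) ∧
      RatioTo ℚ (T ⊗ Tᘁ) (fun n => dimE ℚ ((𝟙_ C ⟶ tp (T ⊗ Tᘁ) n) ⧸
        nilSub T (tp (T ⊗ Tᘁ) n))) N ∧ (N = 1 ↔ IsKimuraFinite T) :=
  zero_one hR hT hb

end Pool.Agent.Results.MP_6e5bed_ag.ZeroOneLaw
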